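import Mathlib

set_option autoImplicit false

namespace Pool.Agent.Results.MP_c84e26_co.Dense

open Real

/-- the base ruleset -/
def M0 : Set (Finset ℕ) := {M | ∃ d : ℕ, 1 ≤ d ∧ M = {d, 2 * d}}

/-- `A` satisfies the recursion defining `A_R` -/
def IsA (R : Set (Finset ℕ)) (A : Set ℕ) : Prop :=
  ∀ n, n ∈ A ↔ ¬ ∃ M ∈ R, (∀ m ∈ M, m ≤ n) ∧ ∀ m ∈ M, n - m ∈ A

theorem uniq (R : Set (Finset ℕ)) (hR : ∀ M ∈ R, ∀ m ∈ M, 0 < m) (A B : Set ℕ)
    (hA : IsA R A) (hB : IsA R B) : A = B := by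
  ext n
  induction n using Nat.strong_induction_on with
  | _ n ih =>
    rw [hA n, hB n]
    refine not_congr (exists_congr fun M => and_congr_right fun hM => and_congr_right fun h =>
      forall_congr' fun m => imp_congr_right fun hm => ih _ ?_)
    have := hR M hM m hm
    have := h m hm
    omega

noncomputable def B (k : ℕ) : Finset ℕ := (rothNumberNat_spec (3 ^ k)).choose

theorem B_lt (k b : ℕ) (h : b ∈ B k) : b < 3 ^ k :=
  Finset.mem_range.1 ((rothNumberNat_spec (3 ^ k)).choose_spec.1 h)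

theorem B_card (k : ℕ) : (B k).card = rothNumberNat (3 ^ k) :=
  (rothNumberNat_spec (3 ^ k)).choose_spec.2.1

theorem B_free (k : ℕ) : ThreeAPFree (B k : Set ℕ) :=
  (rothNumberNat_spec (3 ^ k)).choose_spec.2.2

def U : Set ℕ := {u | u = 0 ∨ ∃ k, ∃ b ∈ B k, u = 2 * 3 ^ k + b}

def T : Set ℕ := {t | t = 1 ∨ ∃ u ∈ U, t = 2 * u}

theorem low (u k : ℕ) (hu : u ∈ U) (h : u < 3 ^ (k + 1)) :
    u < 3 ^ k ∨ ∃ b ∈ B k, u = 2 * 3 ^ k + b := by
  rcases hu with rfl | ⟨j, b, hb, rfl⟩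
  · left; positivity
  have hl := B_lt j b hb
  rcases lt_trichotomy j k with hj | rfl | hj
  · left
    have : 3 ^ (j + 1) ≤ 3 ^ k := Nat.pow_le_pow_right (by norm_num) hj
    rw [pow_succ] at this
    omega
  · right; exact ⟨b, hb, rfl⟩
  · have : 3 ^ (k + 1) ≤ 3 ^ j := Nat.pow_le_pow_right (by norm_num) hj
    omega

theorem U_free (x d : ℕ) (hd : 1 ≤ d) (hx : x ∈ U) (hy : x + d ∈ U) (hz : x + 2 * d ∈ U) :
    False := by
  rcases hz with h | ⟨k, c, hc, h⟩
  · omega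
  have hl := B_lt k c hc
  have e : 3 ^ (k + 1) = 3 ^ k * 3 := pow_succ _ _
  rcases low _ k hy (by omega) with h1 | ⟨b, hb, h1⟩
  · omega
  rcases low _ k hx (by omega) with h2 | ⟨a, ha, h2⟩
  · omega
  have := B_free k (Finset.mem_coe.2 ha) (Finset.mem_coe.2 hb) (Finset.mem_coe.2 hc) (by omega)
  omega

theorem one_not : 1 ∉ U := by
  rintro (h | ⟨k, b, -, h⟩)
  · omega
  · have : 0 < 3 ^ k := by positivity
    omega

theorem T_free (x d : ℕ) (hd : 1 ≤ d) (hx : x ∈ T) (hy : x + d ∈ T) (hz : x + 2 * d ∈ T) :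
    False := by
  rcases hz with h | ⟨w, hw, h⟩
  · omega
  rcases hx with h1 | ⟨u, hu, h1⟩
  · omega
  rcases hy with h2 | ⟨v, hv, h2⟩
  · have : w = 1 := by omega
    exact one_not (this ▸ hw)
  refine U_free u (v - u) (by omega) hu ?_ ?_
  · rwa [show u + (v - u) = v by omega]
  · rwa [show u + 2 * (v - u) = w by omega]

theorem T_cons (x : ℕ) (hx : x ∈ T) (hy : x + 1 ∈ T) : x = 0 := by
  rcases hy with h | ⟨w, hw, h⟩
  · omega
  rcases hx with h1 | ⟨u, hu, h1⟩
  · have : w = 1 := by omega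
    exact absurd (this ▸ hw) one_not
  · omega

theorem T0 : 0 ∈ T := Or.inr ⟨0, Or.inl rfl, rfl⟩
theorem T1 : 1 ∈ T := Or.inl rfl

def M1 : Set (Finset ℕ) := {M | ∃ n, n ∉ T ∧ M = {n, n - 1}}

theorem two_le (n : ℕ) (h : n ∉ T) : 2 ≤ n := by
  by_contra h2
  have : n = 0 ∨ n = 1 := by omega
  rcases this with rfl | rfl
  · exact h T0
  · exact h T1

theorem isA : IsA (M0 ∪ M1) T := by
  intro n
  constructor
  · rintro hn ⟨M, ⟨d, hd, rfl⟩ | ⟨k, hk, rfl⟩, h1, h2⟩
    · have a1 := h1 (2 * d) (by simp)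
      refine T_free (n - 2 * d) d hd (h2 _ (by simp)) ?_ ?_
      · rw [show n - 2 * d + d = n - d by omega]; exact h2 _ (by simp)
      · rwa [show n - 2 * d + 2 * d = n by omega]
    · have a1 := h1 k (by simp)
      have a2 := two_le k hk
      have := T_cons (n - k) (h2 _ (by simp))
        (by rw [show n - k + 1 = n - (k - 1) by omega]; exact h2 _ (by simp))
      exact hk (by rwa [show k = n by omega])
  · intro h
    by_contra hn
    have a2 := two_le n hn
    refine h ⟨{n, n - 1}, Or.inr ⟨n, hn, rfl⟩, ?_, ?_⟩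
    · intro m hm
      simp only [Finset.mem_insert, Finset.mem_singleton] at hm
      omega
    · intro m hm
      simp only [Finset.mem_insert, Finset.mem_singleton] at hm
      rcases hm with rfl | rfl
      · rw [Nat.sub_self]; exact T0
      · rw [show n - (n - 1) = 1 by omega]; exact T1

theorem cnt (k : ℕ) : rothNumberNat (3 ^ k) ≤ {i | i ∈ T ∧ i < 6 * 3 ^ k}.ncard := by
  rw [← B_card, ← Set.ncard_coe_finset]
  refine Set.ncard_le_ncard_of_injOn (fun b => 2 * (2 * 3 ^ k + b)) ?_ ?_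
    ((Set.finite_lt_nat (6 * 3 ^ k)).subset fun i hi => hi.2)
  · intro b hb
    have := B_lt k b hb
    exact ⟨Or.inr ⟨_, Or.inr ⟨k, b, hb, rfl⟩, rfl⟩, by omega⟩
  · intro a _ b _ h
    simp only at h
    omega

theorem grow (j : ℕ) (hj : 30 ≤ j) :
    (j : ℝ) * ((6 * 3 ^ (j * j) : ℕ) : ℝ) ^ (log 2 / log 3) ≤ rothNumberNat (3 ^ (j * j)) := by
  refine le_trans ?_ Behrend.roth_lower_bound
  have l2 : log 2 < 0.6931471808 := log_two_lt_d9
  have l2' : 0.6931471803 < log 2 := log_two_gt_d9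
  have l3 : 1.05 < log 3 := by
    have h1 : log 2 ≤ 2 * log 3 - 2 * log 2 := by
      have : log 8 ≤ log 9 := log_le_log (by norm_num) (by norm_num)
      rw [show (8 : ℝ) = 2 ^ 3 by norm_num, show (9 : ℝ) = 3 ^ 2 by norm_num, log_pow,
        log_pow] at this
      push_cast at this
      linarith
    have : log 2048 ≤ log 2187 := log_le_log (by norm_num) (by norm_num)
    rw [show (2048 : ℝ) = 2 ^ 11 by norm_num, show (2187 : ℝ) = 3 ^ 7 by norm_num, log_pow,
      log_pow] at this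
    push_cast at this
    linarith
  have l3' : log 3 < 1.44 := by
    have : log 3 ≤ log 4 := log_le_log (by norm_num) (by norm_num)
    rw [show (4 : ℝ) = 2 ^ 2 by norm_num, log_pow] at this
    push_cast at this
    linarith
  have hj' : (30 : ℝ) ≤ j := by exact_mod_cast hj
  have hN : log ((3 ^ (j * j) : ℕ) : ℝ) = j * j * log 3 := by
    push_cast; rw [log_pow]; push_cast; ring
  have hs : √(log ((3 ^ (j * j) : ℕ) : ℝ)) ≤ 1.2 * j := by
    rw [hN]
    apply sqrt_le_iff.2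
    refine ⟨by positivity, ?_⟩
    nlinarith [mul_nonneg (sub_nonneg.2 l3'.le) (mul_self_nonneg (j : ℝ))]
  have p1 : (0 : ℝ) < ((3 ^ (j * j) : ℕ) : ℝ) := by positivity
  have p2 : (0 : ℝ) < ((6 * 3 ^ (j * j) : ℕ) : ℝ) := by positivity
  have hM : log ((6 * 3 ^ (j * j) : ℕ) : ℝ) ≤ (j * j + 2) * log 3 := by
    have : ((6 * 3 ^ (j * j) : ℕ) : ℝ) ≤ 3 ^ (j * j + 2) := by
      push_cast
      rw [pow_add]
      have : (0 : ℝ) < 3 ^ (j * j) := by positivity
      linarith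
    refine (log_le_log p2 this).trans ?_
    rw [log_pow]; push_cast; rfl
  rw [rpow_def_of_pos p2, ← exp_log p1, hN, ← exp_add]
  have hjj : (j : ℝ) ≤ exp j := by linarith [add_one_le_exp (j : ℝ)]
  refine (mul_le_mul_of_nonneg_right hjj (exp_pos _).le).trans ?_
  rw [← exp_add, log_exp]
  apply exp_le_exp.2
  have q : log ((6 * 3 ^ (j * j) : ℕ) : ℝ) * (log 2 / log 3) ≤ (j * j + 2) * log 2 := by
    refine (mul_le_mul_of_nonneg_right hM (by positivity)).trans (le_of_eq ?_)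
    field_simp
  rw [hN] at hs
  nlinarith [mul_nonneg (sub_nonneg.2 l3.le) (mul_self_nonneg (j : ℝ)),
    mul_nonneg (sub_nonneg.2 l2.le) (mul_self_nonneg (j : ℝ))]

theorem result : ∃ M' : Set (Finset ℕ), (∀ M ∈ M', M.Nonempty ∧ ∀ m ∈ M, 0 < m) ∧
    ∃ A : Set ℕ, (∀ A', IsA (M0 ∪ M') A' ↔ A' = A) ∧
      ∀ C : ℝ, ∀ X : ℕ, ∃ x : ℕ, X ≤ x ∧
        C ≤ ({i | i ∈ A ∧ i < x}.ncard : ℝ) / (x : ℝ) ^ (log 2 / log 3) := by
  have h1 : ∀ M ∈ M1, M.Nonempty ∧ ∀ m ∈ M, 0 < m := by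
    rintro M ⟨n, hn, rfl⟩
    have := two_le n hn
    refine ⟨by simp, fun m hm => ?_⟩
    simp only [Finset.mem_insert, Finset.mem_singleton] at hm
    omega
  refine ⟨M1, h1, T, fun A' => ⟨fun h => uniq _ ?_ _ _ h isA, fun h => h ▸ isA⟩, fun C X => ?_⟩
  · rintro M (⟨d, hd, rfl⟩ | hM) m hm
    · simp only [Finset.mem_insert, Finset.mem_singleton] at hm
      omega
    · exact (h1 M hM).2 m hm
  · obtain ⟨c, hc⟩ := exists_nat_ge C
    set j := max 30 (max c X)
    have a1 : 30 ≤ j := le_max_left _ _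
    have a2 : c ≤ j := (le_max_left _ _).trans (le_max_right _ _)
    have a3 : X ≤ j := (le_max_right _ _).trans (le_max_right _ _)
    refine ⟨6 * 3 ^ (j * j), ?_, ?_⟩
    · have : j * j < 3 ^ (j * j) := Nat.lt_pow_self (by norm_num)
      nlinarith
    · rw [le_div_iff₀ (by positivity)]
      refine le_trans ?_ ((grow j a1).trans (by exact_mod_cast cnt (j * j)))
      have : (c : ℝ) ≤ j := by exact_mod_cast a2
      exact mul_le_mul_of_nonneg_right (by linarith) (by positivity)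

end Pool.Agent.Results.MP_c84e26_co.Dense
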